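import Pool.Agent.helper49.SP.SpecAS

/-!
# sp: part AS, module S3: partial sums
-/

namespace TP

open DP MeasureTheory

theorem S3_aux (f : ℕ → ℝ) (B L : ℝ) (hL : 0 ≤ L) (hB : 0 ≤ B) (Λ : Finset ℕ) :
    (∀ l ∈ Λ, 0 ≤ f l ∧ f l ≤ B) → L ≤ ∑ l ∈ Λ, f l →
    ∃ Λ' ⊆ Λ, L ≤ ∑ l ∈ Λ', f l ∧ ∑ l ∈ Λ', f l ≤ L + B := by
  induction Λ using Finset.induction_on with
  | empty =>
    intro _ h
    refine ⟨∅, Finset.Subset.refl _, h, ?_⟩
    rw [Finset.sum_empty]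
    linarith
  | insert a s ha ih =>
    intro hf h
    by_cases h1 : L ≤ ∑ l ∈ s, f l
    · obtain ⟨Λ', h2, h3⟩ := ih (fun l hl => hf l (Finset.mem_insert_of_mem hl)) h1
      exact ⟨Λ', h2.trans (Finset.subset_insert _ _), h3⟩
    · rw [not_le] at h1
      refine ⟨insert a s, Finset.Subset.refl _, h, ?_⟩
      rw [Finset.sum_insert ha]
      have := (hf a (Finset.mem_insert_self _ _)).2
      linarith

theorem S3 : S3_stmt := by
  intro Λ f B L hL hB hf h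
  exact S3_aux f B L hL hB Λ hf h

end TP
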